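import Pool.Agent.Q171.RC.Base
import Pool.Agent.Q171.RC.NonGT

/-!
# The three notions of hyperbolicity in algebraic families, and curves over nonlinear bases

Let `k` be a field with an embedding in `ℂ` and let `X_t`, for `t = (t_1, ..., t_m)`, be an algebraic
family of projective varieties over `k`: `X_t` is given by forms in `n + 1` variables of degree at
most `D` whose coefficients are polynomials in `t` over `k`. For each `(n, D, q, e0, s, r, e)` there is
ONE number `δ` such that for every such family there is a Zariski-OPEN set `U` of parameters, given by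
polynomials over `k`, with the following properties, for all `t` with coordinates in `ℂ`.

(1) `U` contains all `t` for which AT LEAST ONE of the following holds: `X_t` is Brody hyperbolic; all
closed subvarieties of `X_t` of positive dimension are of general type; for each point `x` of `X_t`
there are only finitely many morphisms `f` from the affine line to `X_t` with `f(0) = x` (this is
implied by condition 3 of the question, which is the same for all curves instead of the affine line).

(2) If `t` is in `U` and `f : Ω → X_t` is a curve on a domain `Ω` of the plane, over functions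
`b_1, ..., b_q` on `Ω` which satisfy an autonomous system `b_j' = P_j(b)` with polynomials `P_j` of
degree at most `e0` in each variable, and given by `s` iterated linear differential equations with
matrices of size `r` and polynomials of degree at most `e` over `b` (`BVec Ω s r e b f`), then the
quotients of the coordinates of `f` are algebraic of degree at most `δ` over `b_1, ..., b_q` (for
`q = 0`: `f` is constant).

(3) If `t` is in `U` and `f : ℂ → X_t` is an entire curve, given on some domain by such equations over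
elliptic functions `b_1, ..., b_q` for a lattice `L`, then `f` factors through the elliptic curve
`ℂ / Λ` for a subgroup `Λ` of index at most `δ` of `L`.

So each of the three notions of the question, for one member of the family, implies (2) and (3) for
all members of the family in a Zariski-open neighbourhood of this member, with the same `δ`.
-/

set_option autoImplicit false

namespace Pool.Agent.Results.MP_dc0411_ag.NonlinearBasesInFamilies

open MvPolynomial Pool.Agent.Q139.EB Pool.Agent.Q171.RC Pool.Agent.W602.GT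
open Pool.Agent.TH143.EL (HolMap)
open scoped LinearAlgebra.Projectivization

/-- The projective variety `X = {F = 0, F ∈ S}` is (Brody) hyperbolic. -/
def Hyperbolic {N : ℕ} (S : Set (MvPolynomial (Fin N) ℂ)) : Prop :=
  ∀ g : ℂ → (Fin N → ℂ), Differentiable ℂ g → (∀ z, g z ≠ 0) →
    (∀ z, ∀ F ∈ S, eval (g z) F = 0) → ∀ z, ∃ c : ℂ, g z = c • g 0

/-- All closed subvarieties of positive dimension of the projective variety of `S` are of general
type. Subvarieties of dimension `w` are given by their function fields `K` and generic points `y`. -/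
def AllOfGeneralType {n : ℕ} (S : Set (MvPolynomial (Fin (n + 1)) ℂ)) : Prop :=
  ∀ (K : Type) [Field K] [Algebra ℂ K] (w : ℕ) (y : Fin (n + 1) → K), 1 ≤ w →
    SubVar (fun F : S => F.1) K w y → GeneralType ℂ K w

/-- For each point `x` of the projective variety of `S` there are only finitely many morphisms from
the affine line to the variety which map `0` to `x`. -/
def PointedLinesFinite {n : ℕ} (S : Set (MvPolynomial (Fin (n + 1)) ℂ)) : Prop :=
  ∀ x : ℙ ℂ (Fin (n + 1) → ℂ), {f : ℂ → ℙ ℂ (Fin (n + 1) → ℂ) | f 0 = x ∧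
    ∃ p : Fin (n + 1) → Polynomial ℂ, (∀ F ∈ S, aeval p F = 0) ∧
      ∀ z, ∃ h : (fun j => (p j).eval z) ≠ 0, f z = Projectivization.mk ℂ _ h}.Finite

/-- the equations of the member `X_t` of the family, for `t` with coordinates in `ℂ` -/
def member {N m : ℕ} {k : Type} [Field k] [Algebra k ℂ]
    (S : Set (MvPolynomial (Fin N) (MvPolynomial (Fin m) k))) (t : Fin m → ℂ) :
    Set (MvPolynomial (Fin N) ℂ) := map (aeval t : MvPolynomial (Fin m) k →ₐ[k] ℂ).toRingHom '' S

/-- finiteness of pointed lines excludes rational curves -/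
theorem noRat_of_pointed {n : ℕ} {S : Set (MvPolynomial (Fin (n + 1)) ℂ)}
    (hS : ∀ F ∈ S, ∃ d, F.IsHomogeneous d) (h : PointedLinesFinite S) (δ : ℕ) : NoRatLe S δ := by
  classical
  intro p hp _
  by_contra hcon
  push Not at hcon
  obtain ⟨q, h1, h2, -, h3⟩ := coprime_on hp
  have hne : ∀ z : ℂ, (fun j => (q j).eval z) ≠ 0 := fun z h0 => by
    obtain ⟨j, hj⟩ := h2 z
    exact hj (congrFun h0 j)
  have hqS : ∀ F ∈ S, aeval q F = 0 := fun F hF => by
    obtain ⟨d, hd⟩ := hS F hF
    exact h3 F d hd (hcon F hF)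
  let g : ℕ → ℂ → ℙ ℂ (Fin (n + 1) → ℂ) := fun l z =>
    Projectivization.mk ℂ (fun j => (q j).eval ((l : ℂ) * z)) (hne _)
  let x0 : ℙ ℂ (Fin (n + 1) → ℂ) := Projectivization.mk ℂ (fun j => (q j).eval 0) (hne 0)
  have hmem : ∀ l, g l ∈ {f : ℂ → ℙ ℂ (Fin (n + 1) → ℂ) | f 0 = x0 ∧
      ∃ p : Fin (n + 1) → Polynomial ℂ, (∀ F ∈ S, aeval p F = 0) ∧
        ∀ z, ∃ h : (fun j => (p j).eval z) ≠ 0, f z = Projectivization.mk ℂ _ h} := by
    intro l
    refine ⟨?_, fun j => (q j).comp (Polynomial.C (l : ℂ) * Polynomial.X), fun F hF => ?_,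
      fun z => ⟨?_, ?_⟩⟩
    · change Projectivization.mk ℂ (fun j => (q j).eval ((l : ℂ) * 0)) (hne _) = _
      simp only [mul_zero]
      rfl
    · apply Polynomial.funext
      intro z
      rw [eval_aeval_poly, Polynomial.eval_zero]
      have h4 : (fun j => ((q j).comp (Polynomial.C (l : ℂ) * Polynomial.X)).eval z) =
          fun j => (q j).eval ((l : ℂ) * z) := by
        funext j
        rw [Polynomial.eval_comp]
        simp
      rw [h4, ← eval_aeval_poly, hqS F hF, Polynomial.eval_zero]
    · have h4 : (fun j => ((q j).comp (Polynomial.C (l : ℂ) * Polynomial.X)).eval z) =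
          fun j => (q j).eval ((l : ℂ) * z) := by
        funext j
        rw [Polynomial.eval_comp]
        simp
      rw [h4]
      exact hne _
    · change Projectivization.mk ℂ (fun j => (q j).eval ((l : ℂ) * z)) (hne _) = _
      congr 1
      funext j
      rw [Polynomial.eval_comp]
      simp
  have hfin := h x0
  obtain ⟨g0, hg0⟩ : ∃ g0, {l : ℕ | g l = g0}.Infinite := by
    by_contra hcon2
    push Not at hcon2
    have h5 : (Set.univ : Set ℕ) ⊆ ⋃ g0 ∈ hfin.toFinset, {l : ℕ | g l = g0} := by
      intro l _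
      simp only [Set.mem_iUnion]
      exact ⟨g l, hfin.mem_toFinset.2 (hmem l), rfl⟩
    have h6 : (⋃ g0 ∈ hfin.toFinset, {l : ℕ | g l = g0}).Finite :=
      Set.Finite.biUnion (Finset.finite_toSet _) fun g0 _ => hcon2 g0
    exact Set.infinite_univ (h6.subset h5)
  obtain ⟨l0, hl0, hl0'⟩ : ∃ l0 ∈ {l : ℕ | g l = g0}, l0 ≠ 0 := by
    by_contra hcon2
    push Not at hcon2
    exact hg0 ((Set.finite_singleton 0).subset fun l hl => hcon2 l hl)
  have hrel : ∀ l ∈ {l : ℕ | g l = g0}, ∀ z i j, (q i).eval ((l : ℂ) * z) *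
      (q j).eval ((l0 : ℂ) * z) = (q j).eval ((l : ℂ) * z) * (q i).eval ((l0 : ℂ) * z) := by
    intro l hl z i j
    have h5 : g l z = g l0 z := by
      rw [show g l = g0 from hl, show g l0 = g0 from hl0]
    obtain ⟨a, ha⟩ := (Projectivization.mk_eq_mk_iff ℂ _ _ (hne _) (hne _)).1 h5
    have h6 : ∀ j, (q j).eval ((l : ℂ) * z) = (a : ℂ) * (q j).eval ((l0 : ℂ) * z) := fun j =>
      (congrFun ha j).symm
    rw [h6 i, h6 j]
    ring
  have hzero : ∀ w i j, (q i).eval 0 * (q j).eval w = (q j).eval 0 * (q i).eval w := by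
    intro w i j
    have hl0C : (l0 : ℂ) ≠ 0 := Nat.cast_ne_zero.2 hl0'
    let z : ℂ := w / l0
    have hz : (l0 : ℂ) * z = w := mul_div_cancel₀ _ hl0C
    let P : Polynomial ℂ := (q i).comp (Polynomial.C z * Polynomial.X) *
      Polynomial.C ((q j).eval w) - (q j).comp (Polynomial.C z * Polynomial.X) *
      Polynomial.C ((q i).eval w)
    have hP : P = 0 := by
      refine Polynomial.eq_zero_of_infinite_isRoot P ?_
      have h7 : ((fun l : ℕ => (l : ℂ)) '' {l : ℕ | g l = g0}).Infinite :=
        hg0.image Nat.cast_injective.injOn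
      refine h7.mono ?_
      rintro _ ⟨l, hl, rfl⟩
      change P.eval (l : ℂ) = 0
      simp only [P, Polynomial.eval_sub, Polynomial.eval_mul, Polynomial.eval_comp,
        Polynomial.eval_C, Polynomial.eval_X]
      have h8 := hrel l hl z i j
      rw [hz] at h8
      rw [mul_comm z (l : ℂ), h8, sub_self]
    have h9 := congrArg (Polynomial.eval 0) hP
    simp only [P, Polynomial.eval_sub, Polynomial.eval_mul, Polynomial.eval_comp,
      Polynomial.eval_C, Polynomial.eval_X, mul_zero, Polynomial.eval_zero] at h9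
    exact sub_eq_zero.1 h9
  obtain ⟨s, t, i, j, hst⟩ := h1
  obtain ⟨i0, hi0⟩ := h2 0
  have e1 : ∀ w j, (q j).eval w = (q i0).eval w / (q i0).eval 0 * (q j).eval 0 := by
    intro w j
    have h5 := hzero w i0 j
    field_simp
    linear_combination h5
  apply hst
  rw [e1 s i, e1 t j, e1 s j, e1 t i]
  ring

theorem result (n D q e0 s r e : ℕ) : ∃ δ : ℕ,
    ∀ (k : Type) [Field k] [Algebra k ℂ] (m : ℕ)
      (S : Set (MvPolynomial (Fin (n + 1)) (MvPolynomial (Fin m) k))),
      (∀ F ∈ S, ∃ e, e ≤ D ∧ F.IsHomogeneous e) →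
      ∃ Ps : Set (MvPolynomial (Fin m) k),
        (∀ t : Fin m → ℂ, Hyperbolic (member S t) ∨ AllOfGeneralType (member S t) ∨
          PointedLinesFinite (member S t) → ∃ Ψ ∈ Ps, aeval t Ψ ≠ 0) ∧
        ∀ t : Fin m → ℂ, (∃ Ψ ∈ Ps, aeval t Ψ ≠ 0) →
          (∀ Ω : Set ℂ, IsOpen Ω → IsPreconnected Ω → ∀ b : ℂ → Fin q → ℂ, Auto Ω e0 b →
            ∀ f : ℂ → Fin (n + 1) → ℂ, BVec Ω s r e b f → (∃ z ∈ Ω, f z ≠ 0) →
              (∀ z ∈ Ω, ∀ F ∈ member S t, eval (f z) F = 0) →
              ∀ u v, AlgOn Ω δ b (fun z => f z u) fun z => f z v) ∧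
          ∀ (L : PeriodPair) (f : ℂ → ℙ ℂ (Fin (n + 1) → ℂ)), HolMap f →
            (∀ z, ∀ F ∈ member S t, eval (f z).rep F = 0) → EllCurve L q e0 s r e f →
              ∃ Λ : AddSubgroup L.lattice, Λ.index ≠ 0 ∧ Λ.index ≤ δ ∧
                ∀ l ∈ Λ, ∀ z, f (z + (l : ℂ)) = f z := by
  classical
  obtain ⟨δ1, hδ1⟩ := base_locus n D q e0 s r e
  obtain ⟨δ2, -, hδ2⟩ := ell_locus n D q e0 s r e
  refine ⟨max δ1 δ2, fun k _ _ m S hS => ?_⟩
  have hS' : ∀ F ∈ S, ∃ d, F.IsHomogeneous d := fun F hF => by
    obtain ⟨e, -, he⟩ := hS F hF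
    exact ⟨e, he⟩
  have hSt : ∀ t, ∀ F ∈ member S t, ∃ e, e ≤ D ∧ F.IsHomogeneous e := by
    rintro t _ ⟨F, hF, rfl⟩
    obtain ⟨e, he, he'⟩ := hS F hF
    exact ⟨e, he, he'.map _⟩
  have hSt' : ∀ t, ∀ F ∈ member S t, ∃ d, F.IsHomogeneous d := fun t F hF => by
    obtain ⟨e, -, he⟩ := hSt t F hF
    exact ⟨e, he⟩
  obtain ⟨Ps, hPs⟩ := open_locus S hS' (max δ1 δ2)
  refine ⟨Ps, fun t ht => (hPs t).2 ?_, fun t ht => ?_⟩
  · rcases ht with h | h | h
    · exact noRat_of_brody (hSt' t) h _
    · exact noRat_of_gt (hSt' t) h _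
    · exact noRat_of_pointed (hSt' t) h _
  · have hno : NoRatLe (member S t) (max δ1 δ2) := (hPs t).1 ht
    rw [noRatLe_iff (hSt' t)] at hno
    refine ⟨fun Ω hΩ hΩc b hb f hf hf0 hfS u v => ?_, fun L f hf hfS hE => ?_⟩
    · rcases hδ1 (member S t) (hSt t) Ω hΩ hΩc b hb f hf hfS with h1 | h1
      · exfalso
        obtain ⟨z, hz, hfz⟩ := hf0
        obtain ⟨p, h3, h4, h5, h6⟩ := h1 z hz hfz
        exact hno _ hfz ⟨p, h3, fun j => (h4 j).trans (le_max_left _ _), h5, h6⟩
      · obtain ⟨A, h2, h3, h4⟩ := h1 u v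
        have hle : δ1 ≤ max δ1 δ2 := le_max_left _ _
        refine ⟨fun i => if i < max δ1 δ2 - δ1 then 0 else A (i - (max δ1 δ2 - δ1)), fun i => ?_,
          ?_, fun z hz => ?_⟩
        · dsimp only
          split_ifs
          · simp
          · exact (h2 _).trans hle
        · obtain ⟨i, hi, z, hz, hne⟩ := h3
          refine ⟨i + (max δ1 δ2 - δ1), by omega, z, hz, ?_⟩
          beta_reduce
          rw [if_neg (by omega), Nat.add_sub_cancel]
          exact hne
        · have h5 : ∑ i ∈ Finset.range (max δ1 δ2 + 1), eval (b z)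
              (if i < max δ1 δ2 - δ1 then 0 else A (i - (max δ1 δ2 - δ1))) * f z u ^ i *
                f z v ^ (max δ1 δ2 - i) = f z u ^ (max δ1 δ2 - δ1) *
              ∑ i ∈ Finset.range (δ1 + 1), eval (b z) (A i) * f z u ^ i * f z v ^ (δ1 - i) := by
            have h6 : max δ1 δ2 + 1 = (max δ1 δ2 - δ1) + (δ1 + 1) := by omega
            rw [h6, Finset.sum_range_add, Finset.mul_sum]
            have h7 : ∑ i ∈ Finset.range (max δ1 δ2 - δ1), eval (b z)
                (if i < max δ1 δ2 - δ1 then 0 else A (i - (max δ1 δ2 - δ1))) * f z u ^ i *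
                  f z v ^ (max δ1 δ2 - i) = 0 := by
              refine Finset.sum_eq_zero fun i hi => ?_
              rw [if_pos (Finset.mem_range.1 hi), map_zero, zero_mul, zero_mul]
            rw [h7, zero_add]
            refine Finset.sum_congr rfl fun i hi => ?_
            have hi' := Finset.mem_range.1 hi
            rw [if_neg (by omega), Nat.add_sub_cancel_left, pow_add]
            have h8 : max δ1 δ2 - (max δ1 δ2 - δ1 + i) = δ1 - i := by omega
            rw [h8]
            ring
          rw [h5, h4 z hz, mul_zero]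
    · rcases hδ2 L (member S t) (hSt t) f hf hfS hE with h1 | ⟨h1, h2⟩
      · exfalso
        obtain ⟨p, h3, h4, h5, h6⟩ := h1 0
        exact hno _ (f 0).rep_nonzero ⟨p, h3, fun j => (h4 j).trans (le_max_right _ _), h5, h6⟩
      · exact ⟨perGp L f, h1, h2.trans (le_max_right _ _), fun l hl z => hl z⟩

end Pool.Agent.Results.MP_dc0411_ag.NonlinearBasesInFamilies
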