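import Pool.Agent.Q80.FH.Ptd

/-!
MP_dc0411_ag, Q1: the conditions (1), (2) and (3), for the projective schemes with a finite morphism to
projective space which is ramified over many general hypersurfaces.

Definitions (`Q80/FH/Defs.lean`, `Q80/FH/Ptd.lean`): `FinCover`, `Ramified`, `RamifiedOff`; `Brody` and
`BrodyOff` (condition (1)), `AllGeneralType` and `AllLogGeneralType` (condition (2)), `PointedFinite`
(condition (3)).
-/

set_option autoImplicit false

namespace Pool.Agent.Results.MP_dc0411_ag.RamifiedCoversEquivalence

open Pool.Agent.Q80.FH MvPolynomial

/-- Let `n, d ≥ 1` and `m ≥ 2`, `N + 1 = C(n + d, n)`, `2 N m ≤ K (m - 1)` and `q > C(N + K, N)`. Let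
`F 1, …, F q` be general forms of degree `d` in `n + 1` variables and `X` a projective scheme over `ℂ`
with a finite morphism to projective `n`-space which is ramified with the multiplicity at least `m` over
the hypersurfaces `F i = 0`. Then the conditions (1), (2) and (3) hold for `X`: all holomorphic maps from
`ℂ` to `X` are constant; all closed subvarieties of `X` of positive dimension are of general type; and
for all smooth projective curves `C`, points `c` of `C` and points `x` of `X` the morphisms from `C` to
`X` which map `c` to `x` are finite in number. (As `X` is projective, condition (3) for all smooth curves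
follows from the case of projective curves.) More generally, if the morphism is so ramified outside the
closed subscheme `D` of `X` defined by forms `G t` of degrees `γ t`, then the conditions (1) and (2) hold
for `X ∖ D`: all holomorphic maps from `ℂ` to `X ∖ D` are constant, and for all closed subvarieties `Y`
of `X` of positive dimension which are not contained in `D` the variety `Y ∖ D` is of logarithmic general
type. -/
theorem result {n d m N K q : ℕ} (hn : 1 ≤ n) (hd : 1 ≤ d) (hm : 2 ≤ m)
    (hN : N + 1 = (n + d).choose n) (hK : 2 * N * m ≤ K * (m - 1)) (hq : (N + K).choose N < q) :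
    ∃ Ψ : MvPolynomial (Fin q × Exps n d) ℂ, Ψ ≠ 0 ∧
      ∀ F : Fin q → MvPolynomial (Fin (n + 1)) ℂ, (∀ i, (F i).IsHomogeneous d) →
        eval (fun x => coeff x.2.1 (F x.1)) Ψ ≠ 0 →
          ∀ (r : ℕ) (X : FinCover ℂ n r),
            (X.Ramified F m d → X.Brody ∧ X.AllGeneralType ∧ X.PointedFinite) ∧
            ∀ (κ : Type) (G : κ → MvPolynomial (Fin (n + 1) ⊕ Fin r) ℂ) (γ : κ → ℕ),
              X.RamifiedOff F m d G γ → X.BrodyOff G ∧ X.AllLogGeneralType G γ :=
  main_p hn hd hm hN hK hq

end Pool.Agent.Results.MP_dc0411_ag.RamifiedCoversEquivalence
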