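import Mathlib
import Pool.Agent.Q13.UN.Final

/-!
# All subvarieties of general type: uniform bounds for recursively given families of maps

Let `X` and `Z` be the zero sets in the projective `N`-space of the forms in two ideals `I` and `I'`
over a countable field `k ⊂ ℂ`, such that all subvarieties of `X` of positive dimension which are
not contained in `Z` are of general type (over `ℂ`); for `Z` empty (`I' = ⊤`) all subvarieties of `X`
are of general type. The theorem concerns the points of `X ∖ Z` over all fields `L` containing `k`,
for instance the function fields `L = ℂ(C)` of all curves `C`; these points are the maps from `C` to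
`X` which do not have their image in `Z`.

(1) For all `M` and `d` there are `s`, `m₀` and `p` such that for all `L`, all polynomial maps `T` of
the affine `M`-space and all tuples `ψ` of polynomials over `L` (of degree at most `d` in each
variable) the following holds: every orbit of `T` whose first points (up to the index `s`) are mapped
by `ψ` to points of `X ∖ Z` becomes periodic in `X` with the period `p` from the index `m₀` on.

(2) For all `M`, `s` and `d` there is `B` such that the images in `X ∖ Z` of the orbits of `s`
commuting maps of degree at most `d` over any `L` consist of at most `B` points.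

(3) The same for all sequences in `X ∖ Z` whose coordinates satisfy nontrivial linear recurrences of
order at most `r` with polynomial coefficients of degree at most `e`.
-/

set_option autoImplicit false

namespace Pool.Agent.Results.MP_dc0411_ag.RecursiveMaps

open MvPolynomial Pool.Agent.Q13.UN Pool.Agent.Q13.KO

/-- The vectors `x` and `y` are proportional: they represent the same point, if they are not
zero. -/
def Same {N : ℕ} {L : Type} [Field L] (x y : Fin (N + 1) → L) : Prop :=
  ∀ i j, x i * y j = x j * y i

/-- There are at most `B` different points among the points `x a`. -/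
def AtMost {N : ℕ} {L α : Type} [Field L] (B : ℕ) (x : α → Fin (N + 1) → L) : Prop :=
  ∃ S : Finset (Fin (N + 1) → L), S.card ≤ B ∧ (∀ v ∈ S, v ≠ 0) ∧ ∀ a, ∃ v ∈ S, Same (x a) v

/-- The points `u n`, for `n` in `ℕ ^ s`, are the orbit of the point `u 0` under the polynomial maps
`T 0, …, T (s - 1)`, which commute along this orbit. -/
def Commuting {L : Type} [Field L] {M s : ℕ} (T : Fin s → Fin M → MvPolynomial (Fin M) L)
    (u : (Fin s → ℕ) → Fin M → L) : Prop :=
  ∀ n a, u (n + Pi.single a 1) = fun i => aeval (u n) (T a i)

theorem result (k : Type) [Field k] [Countable k] [Algebra k ℂ] {N : ℕ}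
    (I I' : Ideal (MvPolynomial (Fin (N + 1)) k)) (hX : SubGT (algebraMap k ℂ) I I') :
    (∀ M d : ℕ, ∃ s m₀ p : ℕ, 0 < p ∧ ∀ (L : Type) [Field L] [Algebra k L]
        (T : Fin M → MvPolynomial (Fin M) L) (ψ : Fin (N + 1) → MvPolynomial (Fin M) L)
        (v : Fin M → L), (∀ i j, (T i).degreeOf j ≤ d) → (∀ i j, (ψ i).degreeOf j ≤ d) →
        (∀ m ≤ s, OffZ I I' (along T ψ v m)) →
          ∀ m n, m₀ ≤ m → m₀ ≤ n → m ≡ n [MOD p] → Same (along T ψ v m) (along T ψ v n)) ∧
    (∀ M s d : ℕ, ∃ B : ℕ, ∀ (L : Type) [Field L] [Algebra k L]
        (T : Fin s → Fin M → MvPolynomial (Fin M) L) (ψ : Fin (N + 1) → MvPolynomial (Fin M) L)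
        (u : (Fin s → ℕ) → Fin M → L), (∀ a i j, (T a i).degreeOf j ≤ d) →
        (∀ i j, (ψ i).degreeOf j ≤ d) → Commuting T u →
          (∀ n, OffZ I I' fun j => aeval (u n) (ψ j)) → AtMost B fun n j => aeval (u n) (ψ j)) ∧
    ∀ r e : ℕ, ∃ B : ℕ, ∀ (L : Type) [Field L] [Algebra k L] (x : ℕ → Fin (N + 1) → L),
      PolyRec r e x → (∀ m, OffZ I I' (x m)) → AtMost B x :=
  ⟨fun M d => unif_one_univ hX M d, fun M s d => unif_multi_univ hX M s d,
    fun r e => few_points hX r e⟩

end Pool.Agent.Results.MP_dc0411_ag.RecursiveMaps
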